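import Mathlib
import Pool.Agent.H46.WC.Full
import Pool.Agent.H46.WC.NatRep
import Pool.Agent.H46.WC.LocFin

set_option autoImplicit false

namespace Pool.Agent.Results.MP_4da108_an.WeaklyCentralNotCentral

/-- The bounded operators on `H`. -/
abbrev Op (H : Type) [NormedAddCommGroup H] [InnerProductSpace ℂ H] : Type := H →L[ℂ] H

/-- `π` is a *-representation of the C*-algebra `A` by bounded operators on `H`. -/
structure IsStarRep {A H : Type} [NonUnitalCStarAlgebra A] [NormedAddCommGroup H]
    [InnerProductSpace ℂ H] (π : A → Op H) : Prop where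
  add : ∀ a b x, π (a + b) x = π a x + π b x
  smul : ∀ (c : ℂ) (a : A) (x : H), π (c • a) x = c • π a x
  mul : ∀ a b x, π (a * b) x = π a (π b x)
  star : ∀ a x y, inner ℂ (π (star a) x) y = inner ℂ x (π a y)

/-- `K` is a closed subspace invariant under `π`. -/
def IsClosedInvariant {A H : Type} [NormedAddCommGroup H]
    [InnerProductSpace ℂ H] (π : A → Op H) (K : Submodule ℂ H) : Prop :=
  IsClosed (K : Set H) ∧ ∀ a, ∀ x ∈ K, π a x ∈ K

/-- `π` is nonzero and (topologically) irreducible. -/
def IsIrreducible {A H : Type} [NormedAddCommGroup H]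
    [InnerProductSpace ℂ H] (π : A → Op H) : Prop :=
  (∃ a, π a ≠ 0) ∧ ∀ K : Submodule ℂ H, IsClosedInvariant π K → K = ⊥ ∨ K = ⊤

/-- `P` is a primitive ideal of the C*-algebra `A`: the kernel of a nonzero (topologically)
irreducible *-representation of `A` on a complex Hilbert space. -/
def IsPrimitiveIdeal (A : Type) [NonUnitalCStarAlgebra A] (P : TwoSidedIdeal A) : Prop :=
  ∃ (H : Type) (_ : NormedAddCommGroup H) (_ : InnerProductSpace ℂ H) (_ : CompleteSpace H)
    (π : A → Op H), IsStarRep π ∧ IsIrreducible π ∧ ∀ a : A, a ∈ P ↔ π a = 0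

/-- `M` is a maximal modular ideal of `A`. -/
def IsMaximalModularIdeal (A : Type) [NonUnitalCStarAlgebra A] (M : TwoSidedIdeal A) : Prop :=
  IsCoatom M ∧ ∃ e : A, ∀ a : A, a - e * a ∈ M ∧ a - a * e ∈ M

/-- No primitive ideal contains the center. -/
def QuasiCentral (A : Type) [NonUnitalCStarAlgebra A] : Prop :=
  ∀ P : TwoSidedIdeal A, IsPrimitiveIdeal A P → ∃ z ∈ Set.center A, z ∉ P

/-- `A` is central: it is quasi-central (automatic for unital `A`) and primitive ideals are
determined by their intersections with the center. -/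
def Central (A : Type) [NonUnitalCStarAlgebra A] : Prop :=
  QuasiCentral A ∧ ∀ P Q : TwoSidedIdeal A, IsPrimitiveIdeal A P → IsPrimitiveIdeal A Q →
    (∀ z ∈ Set.center A, z ∈ P ↔ z ∈ Q) → P = Q

/-- `A` is weakly central: no maximal modular ideal contains the center, and maximal modular
ideals are determined by their intersections with the center. -/
def WeaklyCentral (A : Type) [NonUnitalCStarAlgebra A] : Prop :=
  (∀ M : TwoSidedIdeal A, IsMaximalModularIdeal A M → ∃ z ∈ Set.center A, z ∉ M) ∧
  ∀ M N : TwoSidedIdeal A, IsMaximalModularIdeal A M → IsMaximalModularIdeal A N →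
    (∀ z ∈ Set.center A, z ∈ M ↔ z ∈ N) → M = N

/-- `v` is a homomorphism from the group `G` into the unitary group of the unital
C*-algebra `B`. -/
def IsUnitaryHom {G : Type} [Group G] {B : Type} [CStarAlgebra B] (v : G → B) : Prop :=
  (∀ g, v g ∈ unitary B) ∧ v 1 = 1 ∧ ∀ g h, v (g * h) = v g * v h

/-- The unital *-homomorphism `φ` carries `u` to `v`. -/
def Intertwines {G A B : Type} [CStarAlgebra A] [CStarAlgebra B] (u : G → A) (v : G → B)
    (φ : A →⋆ₐ[ℂ] B) : Prop :=
  ∀ g, φ (u g) = v g

/-- The unital C*-algebra `A` with the homomorphism `u` into its unitary group is the full group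
C*-algebra of the discrete group `G`: every homomorphism of `G` into the unitary group of a unital
C*-algebra `B` factors through `u` by exactly one unital *-homomorphism `A → B`. -/
def IsFullGroupCStarAlgebra (G : Type) [Group G] (A : Type) [CStarAlgebra A] (u : G → A) : Prop :=
  IsUnitaryHom u ∧ ∀ (B : Type) [CStarAlgebra B] (v : G → B), IsUnitaryHom v →
    ∃! φ : A →⋆ₐ[ℂ] B, Intertwines u v φ

open Pool.Agent.H46.WC

/-- The trivial character of the full group algebra of the finitary alternating group -/
theorem exists_trivial : ∃ ε : CG altFin →⋆ₐ[ℂ] ℂ, ∀ g, ε (uu altFin g : CG altFin) = 1 := by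
  obtain ⟨ε, hε, _⟩ := universal altFin_locFin ℂ 1
  exact ⟨ε, fun g => by rw [hε g]; rfl⟩

theorem isFull : IsFullGroupCStarAlgebra altFin (CG altFin) (fun g => (uu altFin g : CG altFin)) := by
  refine ⟨⟨fun g => (uu altFin g).2, ?_, fun g h => ?_⟩, ?_⟩
  · show ((uu altFin 1 : unitary (CG altFin)) : CG altFin) = 1
    rw [map_one]
    rfl
  · show ((uu altFin (g * h) : unitary (CG altFin)) : CG altFin) = _
    rw [map_mul]
    rfl
  intro B _ v hv
  exact universal altFin_locFin B
    { toFun := fun g => ⟨v g, hv.1 g⟩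
      map_one' := Subtype.ext hv.2.1
      map_mul' := fun g h => Subtype.ext (hv.2.2 g h) }

/-- There is a discrete group whose full group C*-algebra is weakly central but not central. -/
theorem result : ∃ (G : Type) (_ : Group G) (A : Type) (_ : CStarAlgebra A) (u : G → A),
    IsFullGroupCStarAlgebra G A u ∧ WeaklyCentral A ∧ ¬ Central A := by
  refine ⟨altFin, inferInstance, CG altFin, inferInstance, _, isFull, ?_, ?_⟩
  · -- weakly central
    obtain ⟨ε, hε⟩ := exists_trivial
    have hle : ∀ M : TwoSidedIdeal (CG altFin), M ≠ ⊤ → M ≤ TwoSidedIdeal.ker ε := by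
      intro M hM a ha
      rw [TwoSidedIdeal.mem_ker]
      exact ideal_le (uu altFin) ε hε span_dense M hM ha
    have hker : TwoSidedIdeal.ker ε ≠ ⊤ := by
      intro h
      have : (1 : CG altFin) ∈ TwoSidedIdeal.ker ε := by rw [h]; trivial
      rw [TwoSidedIdeal.mem_ker, map_one] at this
      exact one_ne_zero this
    have huniq : ∀ M : TwoSidedIdeal (CG altFin), IsMaximalModularIdeal (CG altFin) M →
        M = TwoSidedIdeal.ker ε := by
      rintro M ⟨hM, _⟩
      by_contra hne
      exact hker (hM.2 _ (lt_of_le_of_ne (hle M hM.1) hne))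
    refine ⟨fun M hM => ⟨1, Set.one_mem_center, fun h1 => hM.1.1 (M.one_mem_iff.mp h1)⟩, ?_⟩
    intro M N hM hN _
    rw [huniq M hM, huniq N hN]
  · -- not central
    rintro ⟨_, hinj⟩
    obtain ⟨ε, hε⟩ := exists_trivial
    obtain ⟨π, hπ, _⟩ := universal altFin_locFin (HH ℕ →L[ℂ] HH ℕ) natRep
    -- central elements act as scalars
    have hscalar : ∀ z ∈ Set.center (CG altFin), ∃ c : ℂ, π z = c • 1 := by
      intro z hz
      apply commutant
      intro g
      rw [← hπ g, ← map_mul, ← map_mul]
      rw [(Set.mem_center_iff.mp hz).comm (uu altFin g : CG altFin)]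
    have hone : (1 : HH ℕ →L[ℂ] HH ℕ) ≠ 0 := by
      intro h
      have h2 := congrArg (fun T : HH ℕ →L[ℂ] HH ℕ => T (ee 0) 0) h
      have h3 : (ee 0 : HH ℕ) 0 = 0 := h2
      rw [ee_self] at h3
      exact one_ne_zero h3
    have hkerπ : TwoSidedIdeal.ker π ≠ ⊤ := by
      intro h
      have : (1 : CG altFin) ∈ TwoSidedIdeal.ker π := by rw [h]; trivial
      rw [TwoSidedIdeal.mem_ker, map_one] at this
      exact hone this
    -- the primitive ideal of the natural representation
    have hP : IsPrimitiveIdeal (CG altFin) (TwoSidedIdeal.ker π) := by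
      refine ⟨HH ℕ, inferInstance, inferInstance, inferInstance, fun a => π a,
        ⟨fun a b x => ?_, fun c a x => ?_, fun a b x => ?_, fun a x y => ?_⟩, ⟨⟨1, ?_⟩, ?_⟩, ?_⟩
      · rw [map_add]; rfl
      · rw [map_smul]; rfl
      · rw [map_mul]; rfl
      · rw [map_star, ContinuousLinearMap.star_eq_adjoint, ContinuousLinearMap.adjoint_inner_left]
      · show π 1 ≠ 0
        rw [map_one]
        exact hone
      · rintro K ⟨hK, hinv⟩
        apply natRep_irred K hK
        intro g x hx
        rw [← hπ g]
        exact hinv _ x hx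
      · intro a
        rw [TwoSidedIdeal.mem_ker]
    -- the primitive ideal of the trivial representation on `ℂ`
    have hQ : IsPrimitiveIdeal (CG altFin) (TwoSidedIdeal.ker ε) := by
      refine ⟨ℂ, inferInstance, inferInstance, inferInstance,
        fun a => ContinuousLinearMap.mul ℂ ℂ (ε a),
        ⟨fun a b x => ?_, fun c a x => ?_, fun a b x => ?_, fun a x y => ?_⟩, ⟨⟨1, ?_⟩, ?_⟩, ?_⟩
      · simp
      · simp [mul_assoc]
      · simp [mul_assoc]
      · have : ε (star a) = (starRingEnd ℂ) (ε a) := map_star ε a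
        simp only [this, ContinuousLinearMap.mul_apply', RCLike.inner_apply, map_mul,
          RingHomCompTriple.comp_apply, RingHom.id_apply]
        ring
      · intro h
        have h2 := congrArg (fun f : ℂ →L[ℂ] ℂ => f 1) h
        simp at h2
      · intro K _
        exact eq_bot_or_eq_top K
      · intro a
        rw [TwoSidedIdeal.mem_ker]
        constructor
        · intro h
          show ContinuousLinearMap.mul ℂ ℂ (ε a) = 0
          rw [h, map_zero]
        · intro h
          have h2 := congrArg (fun f : ℂ →L[ℂ] ℂ => f 1) h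
          simpa using h2
    have hcen : ∀ z ∈ Set.center (CG altFin), z ∈ TwoSidedIdeal.ker π ↔ z ∈ TwoSidedIdeal.ker ε := by
      intro z hz
      obtain ⟨c, hc⟩ := hscalar z hz
      have hπc : π (algebraMap ℂ (CG altFin) c) = algebraMap ℂ (HH ℕ →L[ℂ] HH ℕ) c :=
        AlgHomClass.commutes π c
      have hεc : ε (algebraMap ℂ (CG altFin) c) = c := AlgHomClass.commutes ε c
      have h1 : z - algebraMap ℂ (CG altFin) c ∈ TwoSidedIdeal.ker π := by
        rw [TwoSidedIdeal.mem_ker, map_sub, hc, hπc, Algebra.algebraMap_eq_smul_one, sub_self]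
      have h2 := ideal_le (uu altFin) ε hε span_dense _ hkerπ h1
      rw [map_sub, hεc, sub_eq_zero] at h2
      rw [TwoSidedIdeal.mem_ker, TwoSidedIdeal.mem_ker, hc, h2]
      constructor
      · intro h
        rcases smul_eq_zero.mp h with h | h
        · exact h
        · exact absurd h hone
      · intro h
        have : c = 0 := h
        rw [this, zero_smul]
    have hPQ := hinj _ _ hP hQ hcen
    let g : altFin := ⟨Equiv.swap 0 1 * Equiv.swap 2 3, double_mem (by norm_num) (by norm_num)⟩
    have h1 : (uu altFin g : CG altFin) - 1 ∈ TwoSidedIdeal.ker ε := by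
      rw [TwoSidedIdeal.mem_ker, map_sub, hε, map_one, sub_self]
    rw [← hPQ, TwoSidedIdeal.mem_ker, map_sub, hπ, map_one, sub_eq_zero] at h1
    have h2 := congrArg (fun T : HH ℕ →L[ℂ] HH ℕ => T (ee 0) 1) h1
    simp only [natRep_ee] at h2
    have h3 : g.1 0 = 1 := by
      show (Equiv.swap 0 1 * Equiv.swap 2 3 : Equiv.Perm ℕ) 0 = 1
      decide
    rw [h3, ee_self] at h2
    have h4 : (1 : ℂ) = (ee 0 : HH ℕ) 1 := h2
    rw [ee_ne (by norm_num)] at h4
    exact one_ne_zero h4

end Pool.Agent.Results.MP_4da108_an.WeaklyCentralNotCentral
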